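import Pool.Agent.H33.AP.CaseB
import Pool.Agent.H21.AP.Cases

/-! the statement of `case_b` in the form used by the assembly -/

set_option autoImplicit false

namespace Pool.Agent.H21.AP

open Finset Pool.Agent.H483S

open Classical in
theorem case_b (N E : ℕ) (hN : 10 ^ 12 ≤ N) (hE : 10 ^ 6 * E ≤ N ^ 2) (P : Finset (Finset ℤ))
    (hsub : ∀ A ∈ P, A ⊆ Icc 1 (N : ℤ)) (hAP : ∀ A ∈ P, IsAP A)
    (hint : ∀ A ∈ P, ∀ B ∈ P, A ≠ B → (A ∩ B).Nonempty) (x : ℤ) (hxN : x ∈ Icc 1 (N : ℤ))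
    (hI : 2 * (P.filter (fun A => IsIvl A)).card ≤ P.card + E)
    (hZ : 1056 * (P.filter (fun A => IsIvl A ∨ x ∈ A)).card ≤ 1000 * P.card + E)
    (hY : ∀ A ∈ P, x ∉ A → (N - A.card) ^ 2 ≤ 2 * P.card + E) :
    ∀ A ∈ P, x ∉ A → IsIvl A :=
  Pool.Agent.H33.AP.case_b N E hN hE P hsub hAP hint x hxN hI hZ hY

end Pool.Agent.H21.AP
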