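import Mathlib

/-! sums over the differences, for case (b) (helper35) -/

set_option autoImplicit false

namespace Pool.Agent.H33.AP

open Finset

theorem tail100 (N : ℕ) : ∑ d ∈ Icc 100 N, (1 : ℝ) / (d : ℝ) ^ 2 ≤ 1 / 99 := by
  rcases Nat.lt_or_ge N 100 with h | h
  · rw [Icc_eq_empty (by omega)]; norm_num
  have h1 : Icc 100 N = Ioc 99 N := by ext d; simp only [mem_Icc, mem_Ioc]; omega
  rw [h1]
  have h2 := sum_Ioc_inv_sq_le_sub (α := ℝ) (k := 99) (n := N) (by norm_num) (by omega)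
  have h3 : (0 : ℝ) ≤ (N : ℝ)⁻¹ := by positivity
  have h4 : ∑ d ∈ Ioc 99 N, (1 : ℝ) / (d : ℝ) ^ 2 = ∑ i ∈ Ioc 99 N, ((i : ℝ) ^ 2)⁻¹ :=
    sum_congr rfl (fun d _ => one_div _)
  rw [h4]
  have h5 : ((99 : ℕ) : ℝ)⁻¹ = 1 / 99 := by norm_num
  rw [h5] at h2
  linarith

theorem inv_sum (N : ℕ) (q : ℕ → Prop) [DecidablePred q] (c : ℝ)
    (hc : (∑ d ∈ (Icc 2 99).filter q, (1 : ℝ) / (d : ℝ) ^ 2) ≤ c) :
    ∑ d ∈ (Icc 2 N).filter q, (1 : ℝ) / (d : ℝ) ^ 2 ≤ c + 1 / 99 := by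
  have h1 : (Icc 2 N).filter q ⊆ (Icc 2 99).filter q ∪ Icc 100 N := by
    intro d hd
    obtain ⟨h2, h3⟩ := mem_filter.1 hd
    rw [mem_Icc] at h2
    rcases Nat.lt_or_ge d 100 with h4 | h4
    · exact mem_union_left _ (mem_filter.2 ⟨mem_Icc.2 (by omega), h3⟩)
    · exact mem_union_right _ (mem_Icc.2 (by omega))
  have h2 : ∑ d ∈ (Icc 2 N).filter q, (1 : ℝ) / (d : ℝ) ^ 2 ≤
      ∑ d ∈ (Icc 2 99).filter q ∪ Icc 100 N, (1 : ℝ) / (d : ℝ) ^ 2 :=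
    sum_le_sum_of_subset_of_nonneg h1 (fun d _ _ => by positivity)
  have h3 : ∑ d ∈ (Icc 2 99).filter q ∪ Icc 100 N, (1 : ℝ) / (d : ℝ) ^ 2 =
      ∑ d ∈ (Icc 2 99).filter q, (1 : ℝ) / (d : ℝ) ^ 2 + ∑ d ∈ Icc 100 N, (1 : ℝ) / (d : ℝ) ^ 2 := by
    apply sum_union
    rw [disjoint_left]
    intro d h4 h5
    have h6 := mem_Icc.1 (mem_filter.1 h4).1
    have h7 := mem_Icc.1 h5
    omega
  have h4 := tail100 N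
  linarith

theorem card_le_N (N : ℕ) (q : ℕ → Prop) [DecidablePred q] :
    (((Icc 2 N).filter q).card : ℝ) ≤ N := by
  have h : ((Icc 2 N).filter q).card ≤ N := by
    refine (card_filter_le _ _).trans ?_
    rw [Nat.card_Icc]
    omega
  exact_mod_cast h

theorem cap_sum (N : ℕ) (q : ℕ → Prop) [DecidablePred q] (c : ℝ)
    (hc : (∑ d ∈ (Icc 2 99).filter q, (1 : ℝ) / (d : ℝ) ^ 2) ≤ c) :
    ((∑ d ∈ (Icc 2 N).filter q, (N / d + 3) ^ 2 : ℕ) : ℝ) ≤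
      1.001 * (c + 1 / 99) * (N : ℝ) ^ 2 + 9100 * N := by
  have h1 := inv_sum N q c hc
  have h2 : ∀ d ∈ (Icc 2 N).filter q, (((N / d + 3) ^ 2 : ℕ) : ℝ) ≤
      1.001 * (N : ℝ) ^ 2 * (1 / (d : ℝ) ^ 2) + 9009 := by
    intro d hd
    have h3 := mem_Icc.1 (mem_filter.1 hd).1
    have hd0 : (0 : ℝ) < d := by
      have : 0 < d := by omega
      exact_mod_cast this
    have h4 : ((N / d : ℕ) : ℝ) ≤ (N : ℝ) / d := Nat.cast_div_le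
    have h5 : (0 : ℝ) ≤ ((N / d : ℕ) : ℝ) := Nat.cast_nonneg _
    have h6 : (N : ℝ) ^ 2 * (1 / (d : ℝ) ^ 2) = ((N : ℝ) / d) ^ 2 := by
      rw [div_pow, mul_one_div]
    have h7 : (((N / d + 3) ^ 2 : ℕ) : ℝ) = (((N / d : ℕ) : ℝ) + 3) ^ 2 := by push_cast; ring
    have h8 : ((N / d : ℕ) : ℝ) ^ 2 ≤ ((N : ℝ) / d) ^ 2 := pow_le_pow_left₀ h5 h4 2
    rw [h7, mul_assoc, h6]
    nlinarith [sq_nonneg (((N / d : ℕ) : ℝ) - 3000)]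
  have h3 : ((∑ d ∈ (Icc 2 N).filter q, (N / d + 3) ^ 2 : ℕ) : ℝ) ≤
      ∑ d ∈ (Icc 2 N).filter q, (1.001 * (N : ℝ) ^ 2 * (1 / (d : ℝ) ^ 2) + 9009) := by
    rw [Nat.cast_sum]
    exact sum_le_sum h2
  rw [sum_add_distrib, ← mul_sum, sum_const, nsmul_eq_mul] at h3
  have h4 := card_le_N N q
  have h5 : (0 : ℝ) ≤ 1.001 * (N : ℝ) ^ 2 := by positivity
  have h6 := mul_le_mul_of_nonneg_left h1 h5
  have h7 : (0 : ℝ) ≤ (N : ℝ) := Nat.cast_nonneg _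
  nlinarith

theorem mul_sum_bound (N a b : ℕ) (hab : a + b ≤ N) (q : ℕ → Prop) [DecidablePred q] (c : ℝ)
    (hc : (∑ d ∈ (Icc 2 99).filter q, (1 : ℝ) / (d : ℝ) ^ 2) ≤ c) :
    ((∑ d ∈ (Icc 2 N).filter q, (a / d + 1) * (b / d + 1) : ℕ) : ℝ) ≤
      (c + 1 / 99) * ((a : ℝ) * b + 0.0001 * (N : ℝ) ^ 2) + 2600 * N := by
  have h1 := inv_sum N q c hc
  have hab' : (a : ℝ) + b ≤ N := by exact_mod_cast hab
  have h2 : ∀ d ∈ (Icc 2 N).filter q, (((a / d + 1) * (b / d + 1) : ℕ) : ℝ) ≤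
      ((a : ℝ) * b + 0.0001 * (N : ℝ) ^ 2) * (1 / (d : ℝ) ^ 2) + 2501 := by
    intro d hd
    have h3 := mem_Icc.1 (mem_filter.1 hd).1
    have hd0 : (0 : ℝ) < d := by
      have : 0 < d := by omega
      exact_mod_cast this
    have ha : ((a / d : ℕ) : ℝ) ≤ (a : ℝ) / d := Nat.cast_div_le
    have hb : ((b / d : ℕ) : ℝ) ≤ (b : ℝ) / d := Nat.cast_div_le
    have ha0 : (0 : ℝ) ≤ ((a / d : ℕ) : ℝ) := Nat.cast_nonneg _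
    have hb0 : (0 : ℝ) ≤ ((b / d : ℕ) : ℝ) := Nat.cast_nonneg _
    have h7 : (((a / d + 1) * (b / d + 1) : ℕ) : ℝ) =
        (((a / d : ℕ) : ℝ) + 1) * (((b / d : ℕ) : ℝ) + 1) := by push_cast; ring
    have h8 : (((a / d : ℕ) : ℝ) + 1) * (((b / d : ℕ) : ℝ) + 1) ≤
        ((a : ℝ) / d + 1) * ((b : ℝ) / d + 1) :=
      mul_le_mul (by linarith) (by linarith) (by linarith) (by positivity)
    have h9 : ((a : ℝ) / d + 1) * ((b : ℝ) / d + 1) =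
        (a : ℝ) * b * (1 / (d : ℝ) ^ 2) + ((a : ℝ) + b) / d + 1 := by
      field_simp
      ring
    have h10 : ((a : ℝ) + b) / d ≤ (N : ℝ) / d := by
      apply div_le_div_of_nonneg_right hab' hd0.le
    have h11 : (N : ℝ) / d ≤ 0.0001 * ((N : ℝ) / d) ^ 2 + 2500 := by
      nlinarith [sq_nonneg ((N : ℝ) / d - 5000)]
    have h6 : (N : ℝ) ^ 2 * (1 / (d : ℝ) ^ 2) = ((N : ℝ) / d) ^ 2 := by
      rw [div_pow, mul_one_div]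
    have h12 : ((a : ℝ) * b + 0.0001 * (N : ℝ) ^ 2) * (1 / (d : ℝ) ^ 2) =
        (a : ℝ) * b * (1 / (d : ℝ) ^ 2) + 0.0001 * ((N : ℝ) / d) ^ 2 := by
      rw [← h6]; ring
    rw [h7, h12]
    linarith
  have h3 : ((∑ d ∈ (Icc 2 N).filter q, (a / d + 1) * (b / d + 1) : ℕ) : ℝ) ≤
      ∑ d ∈ (Icc 2 N).filter q, (((a : ℝ) * b + 0.0001 * (N : ℝ) ^ 2) * (1 / (d : ℝ) ^ 2) + 2501) := by
    rw [Nat.cast_sum]
    exact sum_le_sum h2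
  rw [sum_add_distrib, ← mul_sum, sum_const, nsmul_eq_mul] at h3
  have h4 := card_le_N N q
  have h5 : (0 : ℝ) ≤ (a : ℝ) * b + 0.0001 * (N : ℝ) ^ 2 := by positivity
  have h6 := mul_le_mul_of_nonneg_left h1 h5
  have h7 : (0 : ℝ) ≤ (N : ℝ) := Nat.cast_nonneg _
  nlinarith

theorem c_all : (∑ d ∈ (Icc 2 99 : Finset ℕ).filter (fun _ => True), (1 : ℝ) / (d : ℝ) ^ 2) ≤ 0.6349 := by
  have h : (∑ d ∈ (Icc 2 99).filter (fun _ : ℕ => True), (1 : ℚ) / (d : ℚ) ^ 2) ≤ 6349 / 10000 := by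
    decide +kernel
  have h' : (((∑ d ∈ (Icc 2 99).filter (fun _ : ℕ => True), (1 : ℚ) / (d : ℚ) ^ 2 : ℚ)) : ℝ) ≤
      ((6349 / 10000 : ℚ) : ℝ) := by exact_mod_cast h
  rw [Rat.cast_sum] at h'
  have e : ∑ d ∈ (Icc 2 99).filter (fun _ : ℕ => True), (((1 : ℚ) / (d : ℚ) ^ 2 : ℚ) : ℝ) =
      ∑ d ∈ (Icc 2 99).filter (fun _ : ℕ => True), (1 : ℝ) / (d : ℝ) ^ 2 :=
    sum_congr rfl (fun d _ => by push_cast; rfl)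
  rw [e] at h'
  refine h'.trans ?_
  norm_num

theorem c_2 : (∑ d ∈ (Icc 2 99 : Finset ℕ).filter (fun d : ℕ => ¬ 2 ∣ d), (1 : ℝ) / (d : ℝ) ^ 2) ≤ 0.2288 := by
  have h : (∑ d ∈ (Icc 2 99).filter (fun d : ℕ => ¬ 2 ∣ d), (1 : ℚ) / (d : ℚ) ^ 2) ≤
      2288 / 10000 := by
    decide +kernel
  have h' : (((∑ d ∈ (Icc 2 99).filter (fun d : ℕ => ¬ 2 ∣ d), (1 : ℚ) / (d : ℚ) ^ 2 : ℚ)) : ℝ) ≤
      ((2288 / 10000 : ℚ) : ℝ) := by exact_mod_cast h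
  rw [Rat.cast_sum] at h'
  have e : ∑ d ∈ (Icc 2 99).filter (fun d : ℕ => ¬ 2 ∣ d), (((1 : ℚ) / (d : ℚ) ^ 2 : ℚ) : ℝ) =
      ∑ d ∈ (Icc 2 99).filter (fun d : ℕ => ¬ 2 ∣ d), (1 : ℝ) / (d : ℝ) ^ 2 :=
    sum_congr rfl (fun d _ => by push_cast; rfl)
  rw [e] at h'
  refine h'.trans ?_
  norm_num

theorem c_3 : (∑ d ∈ (Icc 2 99 : Finset ℕ).filter (fun d : ℕ => ¬ 3 ∣ d), (1 : ℝ) / (d : ℝ) ^ 2) ≤ 0.4555 := by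
  have h : (∑ d ∈ (Icc 2 99).filter (fun d : ℕ => ¬ 3 ∣ d), (1 : ℚ) / (d : ℚ) ^ 2) ≤
      4555 / 10000 := by
    decide +kernel
  have h' : (((∑ d ∈ (Icc 2 99).filter (fun d : ℕ => ¬ 3 ∣ d), (1 : ℚ) / (d : ℚ) ^ 2 : ℚ)) : ℝ) ≤
      ((4555 / 10000 : ℚ) : ℝ) := by exact_mod_cast h
  rw [Rat.cast_sum] at h'
  have e : ∑ d ∈ (Icc 2 99).filter (fun d : ℕ => ¬ 3 ∣ d), (((1 : ℚ) / (d : ℚ) ^ 2 : ℚ) : ℝ) =
      ∑ d ∈ (Icc 2 99).filter (fun d : ℕ => ¬ 3 ∣ d), (1 : ℝ) / (d : ℝ) ^ 2 :=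
    sum_congr rfl (fun d _ => by push_cast; rfl)
  rw [e] at h'
  refine h'.trans ?_
  norm_num

theorem c_4 : (∑ d ∈ (Icc 2 99 : Finset ℕ).filter (fun d : ℕ => ¬ 4 ∣ d), (1 : ℝ) / (d : ℝ) ^ 2) ≤ 0.5347 := by
  have h : (∑ d ∈ (Icc 2 99).filter (fun d : ℕ => ¬ 4 ∣ d), (1 : ℚ) / (d : ℚ) ^ 2) ≤
      5347 / 10000 := by
    decide +kernel
  have h' : (((∑ d ∈ (Icc 2 99).filter (fun d : ℕ => ¬ 4 ∣ d), (1 : ℚ) / (d : ℚ) ^ 2 : ℚ)) : ℝ) ≤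
      ((5347 / 10000 : ℚ) : ℝ) := by exact_mod_cast h
  rw [Rat.cast_sum] at h'
  have e : ∑ d ∈ (Icc 2 99).filter (fun d : ℕ => ¬ 4 ∣ d), (((1 : ℚ) / (d : ℚ) ^ 2 : ℚ) : ℝ) =
      ∑ d ∈ (Icc 2 99).filter (fun d : ℕ => ¬ 4 ∣ d), (1 : ℝ) / (d : ℝ) ^ 2 :=
    sum_congr rfl (fun d _ => by push_cast; rfl)
  rw [e] at h'
  refine h'.trans ?_
  norm_num

theorem c_5 : (∑ d ∈ (Icc 2 99 : Finset ℕ).filter (fun d : ℕ => ¬ 5 ∣ d), (1 : ℝ) / (d : ℝ) ^ 2) ≤ 0.5712 := by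
  have h : (∑ d ∈ (Icc 2 99).filter (fun d : ℕ => ¬ 5 ∣ d), (1 : ℚ) / (d : ℚ) ^ 2) ≤
      5712 / 10000 := by
    decide +kernel
  have h' : (((∑ d ∈ (Icc 2 99).filter (fun d : ℕ => ¬ 5 ∣ d), (1 : ℚ) / (d : ℚ) ^ 2 : ℚ)) : ℝ) ≤
      ((5712 / 10000 : ℚ) : ℝ) := by exact_mod_cast h
  rw [Rat.cast_sum] at h'
  have e : ∑ d ∈ (Icc 2 99).filter (fun d : ℕ => ¬ 5 ∣ d), (((1 : ℚ) / (d : ℚ) ^ 2 : ℚ) : ℝ) =
      ∑ d ∈ (Icc 2 99).filter (fun d : ℕ => ¬ 5 ∣ d), (1 : ℝ) / (d : ℝ) ^ 2 :=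
    sum_congr rfl (fun d _ => by push_cast; rfl)
  rw [e] at h'
  refine h'.trans ?_
  norm_num

end Pool.Agent.H33.AP
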