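import Pool.Agent.H33.AP.Counts
import Pool.Agent.H33.AP.Sums
import Pool.Agent.H21.AP.FinK3

/-!
The case in which a progression that is not an interval avoids the centre.
-/

set_option autoImplicit false

namespace Pool.Agent.H33.AP

open Finset Pool.Agent.H483S Pool.Agent.H21.AP

theorem big_real {N s L d c : ℕ} (hd : 1 ≤ d) (hN : 0 < N)
    (hc : 2 * c ≤ (L / d + 2 - s) * (L / d + 3 - s)) {w : ℝ} (hL : (L : ℝ) ≤ w * N)
    (hw : w ≤ 1) : (c : ℝ) ≤ (N : ℝ) ^ 2 * ((max 0 (w / d - s / N)) ^ 2 / 2) + 3 * N + 3 := by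
  have hN' : (0 : ℝ) < N := by exact_mod_cast hN
  have hd' : (1 : ℝ) ≤ d := by exact_mod_cast hd
  have hd0 : (0 : ℝ) < d := by linarith
  obtain ⟨m, hm⟩ : ∃ m, m = max 0 (w / d - s / N) := ⟨_, rfl⟩
  rw [← hm]
  have m0 : 0 ≤ m := by rw [hm]; exact le_max_left _ _
  have m1 : m ≤ 1 := by
    rw [hm]
    apply max_le zero_le_one
    have h1 : w / d ≤ 1 := by
      rw [div_le_one hd0]
      linarith
    have h2 : (0 : ℝ) ≤ (s : ℝ) / N := by positivity
    linarith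
  have h1 : ((L / d : ℕ) : ℝ) ≤ (L : ℝ) / d := Nat.cast_div_le
  have h2 : (L : ℝ) / d ≤ w * N / d := div_le_div_of_nonneg_right hL hd0.le
  have h3 : (N : ℝ) * (w / d - s / N) ≤ N * m := by
    apply mul_le_mul_of_nonneg_left _ hN'.le
    rw [hm]
    exact le_max_right _ _
  have h4 : (N : ℝ) * (w / d - s / N) = w * N / d - s := by
    field_simp
  rw [h4] at h3
  have key : ∀ t : ℕ, ((L / d + t - s : ℕ) : ℝ) ≤ N * m + t := by
    intro t
    rcases le_total (L / d + t) s with h | h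
    · rw [Nat.sub_eq_zero_of_le h]
      push_cast
      positivity
    · rw [Nat.cast_sub h, Nat.cast_add]
      linarith
  have k2 := key 2
  have k3 := key 3
  push_cast at k2 k3
  have h5 : ((2 * c : ℕ) : ℝ) ≤ ((L / d + 2 - s) * (L / d + 3 - s) : ℕ) := by exact_mod_cast hc
  push_cast at h5
  have h6 : ((L / d + 2 - s : ℕ) : ℝ) * ((L / d + 3 - s : ℕ) : ℝ) ≤ (N * m + 2) * (N * m + 3) := by
    apply mul_le_mul k2 k3 (Nat.cast_nonneg _)
    positivity
  have h7 : (N : ℝ) * m ≤ N := by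
    calc (N : ℝ) * m ≤ N * 1 := mul_le_mul_of_nonneg_left m1 hN'.le
      _ = N := mul_one _
  nlinarith

/-- the members in the class of the centre that avoid it are on one side -/
theorem one_side {N : ℕ} {H : Finset (Finset ℤ)} (hsub : ∀ A ∈ H, A ⊆ Icc 1 (N : ℤ))
    (hint : ∀ A ∈ H, ∀ B ∈ H, A ≠ B → (A ∩ B).Nonempty) {x : ℤ}
    (hH : ∀ A ∈ H, x ∉ A ∧ ∃ d : ℕ, IsAPd d A ∧ ∀ y ∈ A, (d : ℤ) ∣ x - y) :
    (∀ A ∈ H, A ⊆ Icc (x + 1) (N : ℤ)) ∨ (∀ A ∈ H, A ⊆ Icc 1 (x - 1)) := by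
  classical
  have h1 : ∀ A ∈ H, A ⊆ Icc (x + 1) (N : ℤ) ∨ A ⊆ Icc 1 (x - 1) := by
    intro A hA
    obtain ⟨hx, d, hd, hy⟩ := hH A hA
    by_contra hc
    push Not at hc
    obtain ⟨hc1, hc2⟩ := hc
    obtain ⟨y, hyA, hy1⟩ := not_subset.1 hc1
    obtain ⟨z, hzA, hz1⟩ := not_subset.1 hc2
    have hyI := mem_Icc.1 (hsub A hA hyA)
    have hzI := mem_Icc.1 (hsub A hA hzA)
    rw [mem_Icc] at hy1 hz1
    exact hx (apd_between hd hyA hzA (by omega) (by omega) (hy y hyA))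
  by_contra hc
  push Not at hc
  obtain ⟨⟨A, hA, hA'⟩, B, hB, hB'⟩ := hc
  have hAl := (h1 A hA).resolve_left hA'
  have hBr := (h1 B hB).resolve_right hB'
  have hne : A ≠ B := by
    rintro rfl
    exact hA' hBr
  obtain ⟨c, hc⟩ := hint A hA B hB hne
  obtain ⟨hc1, hc2⟩ := mem_inter.1 hc
  have k1 := mem_Icc.1 (hAl hc1)
  have k2 := mem_Icc.1 (hBr hc2)
  omega

/-- some member with difference divisible by `k` is not in the class of `x` mod `k` -/
def Kk (P : Finset (Finset ℤ)) (x : ℤ) (k : ℕ) : Prop :=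
  ∃ A ∈ P, ∃ d : ℕ, 1 ≤ d ∧ k ∣ d ∧ IsAPd d A ∧ ∃ y ∈ A, ¬ (k : ℤ) ∣ x - y

theorem kk_avoid {P : Finset (Finset ℤ)} (hint : ∀ A ∈ P, ∀ B ∈ P, A ≠ B → (A ∩ B).Nonempty)
    {x : ℤ} {k : ℕ} (hK : Kk P x k) {B : Finset ℤ} (hB : B ∈ P) {d : ℕ} (hkd : k ∣ d)
    (hBd : IsAPd d B) : x ∉ B := by
  classical
  intro hxB
  obtain ⟨A, hA, dA, hdA, hkA, hAd, y, hy, hny⟩ := hK
  apply hny
  by_cases hAB : A = B
  · subst hAB
    exact dvd_trans (by exact_mod_cast hkA) (apd_dvd hAd hxB hy)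
  · obtain ⟨z, hz⟩ := hint A hA B hB hAB
    obtain ⟨hz1, hz2⟩ := mem_inter.1 hz
    have h1 : (k : ℤ) ∣ x - z := dvd_trans (by exact_mod_cast hkd) (apd_dvd hBd hxB hz2)
    have h2 : (k : ℤ) ∣ z - y := dvd_trans (by exact_mod_cast hkA) (apd_dvd hAd hz1 hy)
    have := dvd_add h1 h2
    have e : x - z + (z - y) = x - y := by ring
    rwa [e] at this

/-- cap for a set of differences -/
theorem cap_q {N : ℕ} {Q : Finset (Finset ℤ)} (hsub : ∀ A ∈ Q, A ⊆ Icc 1 (N : ℤ))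
    (hint : ∀ A ∈ Q, ∀ B ∈ Q, A ≠ B → (A ∩ B).Nonempty) (q : ℕ → Prop) [DecidablePred q]
    (hQ : ∀ A ∈ Q, ∃ d ∈ (Icc 2 N).filter q, IsAPd d A) :
    4 * Q.card ≤ ∑ d ∈ (Icc 2 N).filter q, (N / d + 3) ^ 2 := by
  classical
  have h1 : Q ⊆ ((Icc 2 N).filter q).biUnion (fun d => Q.filter (fun A => IsAPd d A)) := by
    intro A hA
    obtain ⟨d, hd, hA2⟩ := hQ A hA
    exact mem_biUnion.2 ⟨d, hd, mem_filter.2 ⟨hA, hA2⟩⟩
  have h2 := (card_le_card h1).trans card_biUnion_le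
  have h3 : ∀ d ∈ (Icc 2 N).filter q, 4 * (Q.filter (fun A => IsAPd d A)).card ≤ (N / d + 3) ^ 2 := by
    intro d hd
    have hd2 := (mem_Icc.1 (mem_filter.1 hd).1).1
    exact apd_count N d (by omega) _ (fun A hA => hsub A (mem_filter.1 hA).1)
      (fun A hA => (mem_filter.1 hA).2)
      (fun A hA B hB => hint A (mem_filter.1 hA).1 B (mem_filter.1 hB).1)
  calc 4 * Q.card ≤ 4 * ∑ d ∈ (Icc 2 N).filter q, (Q.filter (fun A => IsAPd d A)).card :=
        Nat.mul_le_mul_left _ h2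
    _ = ∑ d ∈ (Icc 2 N).filter q, 4 * (Q.filter (fun A => IsAPd d A)).card := by rw [mul_sum]
    _ ≤ _ := sum_le_sum h3

def DQ (N : ℕ) (q : ℕ → Prop) (A : Finset ℤ) : Prop := ∃ d ∈ Icc 2 N, q d ∧ IsAPd d A

theorem split_q {N : ℕ} {G : Finset (Finset ℤ)} (hsub : ∀ A ∈ G, A ⊆ Icc 1 (N : ℤ))
    (hint : ∀ A ∈ G, ∀ B ∈ G, A ≠ B → (A ∩ B).Nonempty) (q : ℕ → Prop) [DecidablePred q] :
    ∃ Q : Finset (Finset ℤ), (∀ A ∈ G, ∀ d ∈ Icc 2 N, q d → IsAPd d A → A ∈ Q) ∧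
      4 * Q.card ≤ ∑ d ∈ (Icc 2 N).filter q, (N / d + 3) ^ 2 := by
  classical
  refine ⟨G.filter (fun A => DQ N q A), ?_, ?_⟩
  · intro A hA d hd hq hAd
    exact mem_filter.2 ⟨hA, d, hd, hq, hAd⟩
  · refine cap_q (fun A hA => hsub A (mem_filter.1 hA).1)
      (fun A hA B hB => hint A (mem_filter.1 hA).1 B (mem_filter.1 hB).1) q ?_
    intro A hA
    obtain ⟨-, d, hd, hq, hAd⟩ := mem_filter.1 hA
    exact ⟨d, mem_filter.2 ⟨hd, hq⟩, hAd⟩

/-- members through `x` for a set of differences -/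
theorem through_q {N : ℕ} {Q : Finset (Finset ℤ)} (hsub : ∀ A ∈ Q, A ⊆ Icc 1 (N : ℤ))
    (x : ℤ) (hx : ∀ A ∈ Q, x ∈ A) (q : ℕ → Prop) [DecidablePred q]
    (hQ : ∀ A ∈ Q, ∃ d ∈ (Icc 2 N).filter q, IsAPd d A) :
    Q.card ≤ ∑ d ∈ (Icc 2 N).filter q, ((x - 1).toNat / d + 1) * (((N : ℤ) - x).toNat / d + 1) := by
  classical
  have h1 : Q ⊆ ((Icc 2 N).filter q).biUnion (fun d => Q.filter (fun A => IsAPd d A)) := by
    intro A hA
    obtain ⟨d, hd, hA2⟩ := hQ A hA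
    exact mem_biUnion.2 ⟨d, hd, mem_filter.2 ⟨hA, hA2⟩⟩
  refine ((card_le_card h1).trans card_biUnion_le).trans (sum_le_sum ?_)
  intro d hd
  have hd2 := (mem_Icc.1 (mem_filter.1 hd).1).1
  exact contain_count (by omega) (fun A hA => (mem_filter.1 hA).2)
    (fun A hA => hsub A (mem_filter.1 hA).1) (fun A hA => hx A (mem_filter.1 hA).1)

/-- large members with difference `d`, all in an interval -/
theorem big_d {N : ℕ} (hN : 0 < N) {Q : Finset (Finset ℤ)} {d s : ℕ} (hd : 1 ≤ d)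
    (hQ : ∀ A ∈ Q, IsAPd d A)
    (hint : ∀ A ∈ Q, ∀ B ∈ Q, A ≠ B → (A ∩ B).Nonempty) {lo hi : ℤ}
    (hsub : ∀ A ∈ Q, A ⊆ Icc lo hi) (hs : ∀ A ∈ Q, s ≤ A.card) {w : ℝ}
    (hw : w ≤ 1) (hL : (((hi + 1 - lo).toNat : ℕ) : ℝ) ≤ w * N) :
    (Q.card : ℝ) ≤ (N : ℝ) ^ 2 * ((max 0 (w / d - s / N)) ^ 2 / 2) + 3 * N + 3 :=
  big_real hd hN (big_count hd hQ hint hsub hs) hL hw

/-- the final contradiction -/
theorem final_contra {n E p i g al : ℝ} (hn : 10 ^ 12 ≤ n) (hE : 10 ^ 6 * E ≤ n ^ 2) (_hE0 : 0 ≤ E)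
    (hp : i + g = p) (hI : 2 * i ≤ p + E) (hY : (1 - al) ^ 2 * n ^ 2 ≤ 2 * p + E)
    (hal : al ≤ 0.5001) (hg : g ≤ n ^ 2 * (0.2485 * (1 - al) ^ 2) + 0.0001 * n ^ 2 + 10000 * n) :
    False := by
  have h1 : 0.2499 ≤ (1 - al) ^ 2 := by nlinarith
  have h2 : 10 ^ 12 * n ≤ n ^ 2 := by nlinarith
  have h3 : 0.2499 * n ^ 2 ≤ (1 - al) ^ 2 * n ^ 2 := mul_le_mul_of_nonneg_right h1 (by positivity)
  have h4 : n ^ 2 * (0.2485 * (1 - al) ^ 2) = 0.2485 * ((1 - al) ^ 2 * n ^ 2) := by ring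
  rw [h4] at hg
  nlinarith

theorem kk_size {N : ℕ} {P Go : Finset (Finset ℤ)} (hsub : ∀ A ∈ P, A ⊆ Icc 1 (N : ℤ))
    (hint : ∀ A ∈ P, ∀ B ∈ P, A ≠ B → (A ∩ B).Nonempty) {x : ℤ} {k s : ℕ} (hk : 2 ≤ k)
    (hGo : ∀ A ∈ P, ¬ IsIvl A → x ∉ A → A ∈ Go) (hmin : ∀ A ∈ Go, s ≤ A.card)
    (hK : Kk P x k) : s ≤ N / k + 1 := by
  have hK' := hK
  obtain ⟨A, hA, d, hd, hkd, hAd, y, hy, hny⟩ := hK'
  have h1 := kk_avoid hint hK hA hkd hAd
  have hkd' : k ≤ d := Nat.le_of_dvd hd hkd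
  have h2 := hmin A (hGo A hA (apd_not_ivl (by omega) hAd) h1)
  have h3 := size_le hd hAd (hsub A hA)
  have h4 : N / d ≤ N / k := Nat.div_le_div_left hkd' (by omega)
  omega

theorem side_data {N : ℕ} (hN : 0 < N) {H : Finset (Finset ℤ)} (hsub : ∀ A ∈ H, A ⊆ Icc 1 (N : ℤ))
    (hint : ∀ A ∈ H, ∀ B ∈ H, A ≠ B → (A ∩ B).Nonempty) {x : ℤ} (hx : x ∈ Icc 1 (N : ℤ))
    (hH : ∀ A ∈ H, x ∉ A ∧ ∃ d : ℕ, IsAPd d A ∧ ∀ y ∈ A, (d : ℤ) ∣ x - y) :
    ∃ lo hi : ℤ, ∃ xi : ℝ, 0 ≤ xi ∧ xi ≤ 1 ∧ (∀ A ∈ H, A ⊆ Icc lo hi) ∧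
      (((hi + 1 - lo).toNat : ℕ) : ℝ) ≤ (1 - xi) * N ∧
      (((x - 1).toNat : ℕ) : ℝ) * ((((N : ℤ) - x).toNat : ℕ) : ℝ) ≤ (N : ℝ) ^ 2 * (xi * (1 - xi)) := by
  have hN' : (0 : ℝ) < N := by exact_mod_cast hN
  rw [mem_Icc] at hx
  obtain ⟨a, ha⟩ : ∃ a, a = (x - 1).toNat := ⟨_, rfl⟩
  obtain ⟨b, hb⟩ : ∃ b, b = ((N : ℤ) - x).toNat := ⟨_, rfl⟩
  have hab : a + b + 1 = N := by omega
  have hab' : (a : ℝ) + b + 1 = N := by exact_mod_cast hab
  have a0 : (0 : ℝ) ≤ a := Nat.cast_nonneg a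
  have b0 : (0 : ℝ) ≤ b := Nat.cast_nonneg b
  rw [← ha, ← hb]
  have key : ∀ u v : ℝ, 0 ≤ u → 0 ≤ v → u + v + 1 = N → ∃ xi : ℝ, 0 ≤ xi ∧ xi ≤ 1 ∧
      u = (1 - xi) * N ∧ u * v ≤ (N : ℝ) ^ 2 * (xi * (1 - xi)) := by
    intro u v hu hv huv
    refine ⟨1 - u / N, ?_, ?_, ?_, ?_⟩
    · rw [sub_nonneg, div_le_one hN']
      linarith
    · have : 0 ≤ u / N := by positivity
      linarith
    · field_simp
      ring
    · have e : (N : ℝ) ^ 2 * ((1 - u / N) * (1 - (1 - u / N))) = (N - u) * u := by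
        field_simp
        ring
      rw [e]
      nlinarith
  rcases one_side hsub hint hH with h | h
  · obtain ⟨xi, k1, k2, k3, k4⟩ := key b a b0 a0 (by linarith)
    refine ⟨x + 1, N, xi, k1, k2, h, ?_, by linarith [mul_comm (a : ℝ) b]⟩
    have : ((N : ℤ) + 1 - (x + 1)).toNat = b := by omega
    rw [this, ← k3]
  · obtain ⟨xi, k1, k2, k3, k4⟩ := key a b a0 b0 hab'
    refine ⟨1, x - 1, xi, k1, k2, h, ?_, k4⟩
    have : (x - 1 + 1 - 1).toNat = a := by omega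
    rw [this, ← k3]

open Classical in
theorem case_b (N E : ℕ) (hN : 10 ^ 12 ≤ N) (hE : 10 ^ 6 * E ≤ N ^ 2) (P : Finset (Finset ℤ))
    (hsub : ∀ A ∈ P, A ⊆ Icc 1 (N : ℤ)) (hAP : ∀ A ∈ P, IsAP A)
    (hint : ∀ A ∈ P, ∀ B ∈ P, A ≠ B → (A ∩ B).Nonempty) (x : ℤ) (hxN : x ∈ Icc 1 (N : ℤ))
    (hI : 2 * (P.filter (fun A => IsIvl A)).card ≤ P.card + E)
    (hZ : 1056 * (P.filter (fun A => IsIvl A ∨ x ∈ A)).card ≤ 1000 * P.card + E)
    (hY : ∀ A ∈ P, x ∉ A → (N - A.card) ^ 2 ≤ 2 * P.card + E) :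
    ∀ A ∈ P, x ∉ A → IsIvl A := by
  by_contra hcon
  push Not at hcon
  obtain ⟨A0, hA0, hxA0, hnA0⟩ := hcon
  have hN0 : 0 < N := by omega
  obtain ⟨I, hIdef⟩ : ∃ I, I = P.filter (fun A => IsIvl A) := ⟨_, rfl⟩
  obtain ⟨G, hGdef⟩ : ∃ G, G = P.filter (fun A => ¬ IsIvl A) := ⟨_, rfl⟩
  obtain ⟨Gx, hGx⟩ : ∃ Gx, Gx = G.filter (fun A => x ∈ A) := ⟨_, rfl⟩
  obtain ⟨Go, hGo⟩ : ∃ Go, Go = G.filter (fun A => ¬ x ∈ A) := ⟨_, rfl⟩
  have hIG : I.card + G.card = P.card := by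
    rw [hIdef, hGdef]
    exact card_filter_add_card_filter_not _
  have hGG : Gx.card + Go.card = G.card := by
    rw [hGx, hGo]
    exact card_filter_add_card_filter_not _
  rw [← hIdef] at hI
  have hZ' : 1056 * (I.card + Gx.card) ≤ 1000 * P.card + E := by
    refine le_trans (Nat.mul_le_mul_left _ ?_) hZ
    rw [← card_union_of_disjoint]
    · apply card_le_card
      intro A hA
      rcases mem_union.1 hA with h | h
      · rw [hIdef] at h
        exact mem_filter.2 ⟨(mem_filter.1 h).1, Or.inl (mem_filter.1 h).2⟩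
      · rw [hGx, hGdef] at h
        obtain ⟨h1, h2⟩ := mem_filter.1 h
        exact mem_filter.2 ⟨(mem_filter.1 h1).1, Or.inr h2⟩
    · rw [disjoint_left]
      intro A h h'
      rw [hIdef] at h
      rw [hGx, hGdef] at h'
      exact (mem_filter.1 (mem_filter.1 h').1).2 (mem_filter.1 h).2
  have memG : ∀ A ∈ G, A ∈ P ∧ ¬ IsIvl A := by
    intro A hA
    rw [hGdef] at hA
    exact mem_filter.1 hA
  have memGo : ∀ A ∈ Go, A ∈ G ∧ x ∉ A := by
    intro A hA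
    rw [hGo] at hA
    exact mem_filter.1 hA
  have memGx : ∀ A ∈ Gx, A ∈ G ∧ x ∈ A := by
    intro A hA
    rw [hGx] at hA
    exact mem_filter.1 hA
  have inGo : ∀ A ∈ P, ¬ IsIvl A → x ∉ A → A ∈ Go := by
    intro A hA h1 h2
    rw [hGo, hGdef]
    exact mem_filter.2 ⟨mem_filter.2 ⟨hA, h1⟩, h2⟩
  have hdG : ∀ A ∈ G, ∃ d ∈ Icc 2 N, IsAPd d A := fun A hA =>
    apd_of_not_ivl (hAP A (memG A hA).1) (memG A hA).2 (hsub A (memG A hA).1)
  have subG : ∀ A ∈ G, A ⊆ Icc 1 (N : ℤ) := fun A hA => hsub A (memG A hA).1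
  have intG : ∀ A ∈ G, ∀ B ∈ G, A ≠ B → (A ∩ B).Nonempty := fun A hA B hB =>
    hint A (memG A hA).1 B (memG B hB).1
  -- the smallest avoiding member
  obtain ⟨A1, hA1, hmin⟩ := exists_min_image Go card ⟨A0, inGo A0 hA0 hnA0 hxA0⟩
  obtain ⟨s, hs⟩ : ∃ s, s = A1.card := ⟨_, rfl⟩
  rw [← hs] at hmin
  have hY1 := hY A1 (memG A1 (memGo A1 hA1).1).1 (memGo A1 hA1).2
  rw [← hs] at hY1
  have hs2 : s ≤ N / 2 + 1 := by
    obtain ⟨d, hd, hd'⟩ := hdG A1 (memGo A1 hA1).1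
    rw [mem_Icc] at hd
    have h3 := size_le (by omega) hd' (subG A1 (memGo A1 hA1).1)
    have h4 : N / d ≤ N / 2 := Nat.div_le_div_left hd.1 (by omega)
    omega
  -- real numbers
  obtain ⟨n, hn⟩ : ∃ n : ℝ, n = (N : ℝ) := ⟨_, rfl⟩
  have hn12 : (10 : ℝ) ^ 12 ≤ n := by rw [hn]; exact_mod_cast hN
  have hn0 : 0 < n := by linarith [show (0 : ℝ) < 10 ^ 12 by positivity]
  have hE' : (10 : ℝ) ^ 6 * (E : ℝ) ≤ n ^ 2 := by rw [hn]; exact_mod_cast hE
  have hE0 : (0 : ℝ) ≤ E := Nat.cast_nonneg E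
  have hIG' : (I.card : ℝ) + G.card = P.card := by exact_mod_cast hIG
  have hGG' : (Gx.card : ℝ) + Go.card = G.card := by exact_mod_cast hGG
  have hI' : 2 * (I.card : ℝ) ≤ P.card + E := by exact_mod_cast hI
  have hZ'' : 1056 * ((I.card : ℝ) + Gx.card) ≤ 1000 * P.card + E := by exact_mod_cast hZ'
  have hsn : (s : ℝ) ≤ n / 2 + 1 := by
    have h1 : ((N / 2 : ℕ) : ℝ) ≤ (N : ℝ) / 2 := by
      have := @Nat.cast_div_le ℝ _ _ _ N 2
      simpa using this
    have h2 : (s : ℝ) ≤ ((N / 2 + 1 : ℕ) : ℝ) := by exact_mod_cast hs2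
    push_cast at h2
    rw [hn]
    linarith
  have hsN : s ≤ N := by omega
  have hY2 : (n - s) ^ 2 ≤ 2 * (P.card : ℝ) + E := by
    have h1 : (((N - s) ^ 2 : ℕ) : ℝ) ≤ ((2 * P.card + E : ℕ) : ℝ) := by exact_mod_cast hY1
    push_cast [Nat.cast_sub hsN] at h1
    rw [hn]
    exact h1
  obtain ⟨al, hal⟩ : ∃ al : ℝ, al = (s : ℝ) / n := ⟨_, rfl⟩
  have hals : al * n = s := by
    rw [hal]
    field_simp
  have hY3 : (1 - al) ^ 2 * n ^ 2 ≤ 2 * (P.card : ℝ) + E := by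
    have : (1 - al) ^ 2 * n ^ 2 = (n - s) ^ 2 := by
      rw [← hals]
      ring
    rw [this]
    exact hY2
  have hdivn : ∀ k : ℕ, 1 ≤ k → s ≤ N / k + 1 → al ≤ 1 / k + 0.00001 := by
    intro k hk hsk
    have h1 : ((N / k : ℕ) : ℝ) ≤ (N : ℝ) / k := Nat.cast_div_le
    have h2 : (s : ℝ) ≤ ((N / k + 1 : ℕ) : ℝ) := by exact_mod_cast hsk
    push_cast at h2
    rw [hal, div_le_iff₀ hn0]
    have h3 : (1 / (k : ℝ) + 0.00001) * n = n / k + 0.00001 * n := by ring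
    rw [h3]
    rw [← hn] at h1
    have h4 : (1 : ℝ) ≤ 0.00001 * n := by
      have : (10 : ℝ) ^ 12 = 1000000000000 := by norm_num
      linarith
    linarith
  have hal2 : al ≤ 0.5001 := by
    have := hdivn 2 (by norm_num) hs2
    norm_num at this
    linarith
  -- cap for all differences
  have hcap := cap_q subG intG (fun _ => True) (by
    intro A hA
    obtain ⟨d, hd, hd'⟩ := hdG A hA
    exact ⟨d, mem_filter.2 ⟨hd, trivial⟩, hd'⟩)
  have hcap' : 4 * (G.card : ℝ) ≤ 1.001 * (0.6349 + 1/99) * n ^ 2 + 9100 * n := by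
    have h1 := cap_sum N (fun _ => True) 0.6349 c_all
    have h2 : ((4 * G.card : ℕ) : ℝ) ≤ ((∑ d ∈ (Icc 2 N).filter (fun _ => True), (N / d + 3) ^ 2 : ℕ) : ℝ) := by
      exact_mod_cast hcap
    rw [hn]
    push_cast at h1 h2 ⊢
    linarith
  have hal1 : 0.195 ≤ al := by
    by_contra hc
    push Not at hc
    have h1 : 0.648 * n ^ 2 ≤ (1 - al) ^ 2 * n ^ 2 := by
      apply mul_le_mul_of_nonneg_right _ (by positivity)
      nlinarith
    have h2 : 10 ^ 12 * n ≤ n ^ 2 := by nlinarith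
    nlinarith
  have hs5 : ∀ A ∈ Go, ∀ d : ℕ, 6 ≤ d → ¬ IsAPd d A := by
    intro A hA d hd hAd
    have h1 := size_le (by omega) hAd (subG A (memGo A hA).1)
    have h2 := hmin A hA
    have h3 : N / d ≤ N / 6 := Nat.div_le_div_left hd (by omega)
    have h4 := hdivn 6 (by norm_num) (by omega)
    norm_num at h4
    linarith
  have two : ∀ d : ℕ, d ∈ Icc 2 N → 2 ≤ d := fun d hd => (mem_Icc.1 hd).1
  by_cases hK2 : Kk P x 2
  · -- even differences avoid `x`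
    obtain ⟨Q1, hQ1, hcq⟩ := split_q subG intG (fun d => ¬ 2 ∣ d)
    have hsubU : G ⊆ Q1 ∪ (Go.filter (fun A => IsAPd 2 A) ∪ Go.filter (fun A => IsAPd 4 A)) := by
      intro A hA
      obtain ⟨d, hd, hd'⟩ := hdG A hA
      by_cases h2d : 2 ∣ d
      · have hav := kk_avoid hint hK2 (memG A hA).1 h2d hd'
        have hAo := inGo A (memG A hA).1 (memG A hA).2 hav
        have h6 : ¬ 6 ≤ d := fun h => hs5 A hAo d h hd'
        have h2 := two d hd
        have : d = 2 ∨ d = 4 := by omega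
        rcases this with h | h
        · subst h
          exact mem_union_right _ (mem_union_left _ (mem_filter.2 ⟨hAo, hd'⟩))
        · subst h
          exact mem_union_right _ (mem_union_right _ (mem_filter.2 ⟨hAo, hd'⟩))
      · exact mem_union_left _ (hQ1 A hA d hd h2d hd')
    have hc1 : G.card ≤ Q1.card + ((Go.filter (fun A => IsAPd 2 A)).card +
        (Go.filter (fun A => IsAPd 4 A)).card) :=
      (card_le_card hsubU).trans ((card_union_le _ _).trans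
        (Nat.add_le_add_left (card_union_le _ _) _))
    have hcq' : 4 * (Q1.card : ℝ) ≤ 1.001 * (0.2288 + 1/99) * n ^ 2 + 9100 * n := by
      have h1 := cap_sum N (fun d => ¬ 2 ∣ d) 0.2288 c_2
      have h2 : ((4 * Q1.card : ℕ) : ℝ) ≤ ((∑ d ∈ (Icc 2 N).filter (fun d => ¬ 2 ∣ d), (N / d + 3) ^ 2 : ℕ) : ℝ) := by
        exact_mod_cast hcq
      rw [hn]
      push_cast at h1 h2 ⊢
      linarith
    have hb : ∀ d : ℕ, 1 ≤ d → ((Go.filter (fun A => IsAPd d A)).card : ℝ) ≤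
        n ^ 2 * ((max 0 (1 / d - al)) ^ 2 / 2) + 3 * n + 3 := by
      intro d hd
      have := big_d (s := s) (lo := 1) (hi := (N : ℤ)) (w := 1) hN0 hd
        (Q := Go.filter (fun A => IsAPd d A)) (fun A hA => (mem_filter.1 hA).2)
        (fun A hA B hB => intG A (memGo A (mem_filter.1 hA).1).1 B (memGo B (mem_filter.1 hB).1).1)
        (fun A hA => subG A (memGo A (mem_filter.1 hA).1).1)
        (fun A hA => hmin A (mem_filter.1 hA).1) le_rfl (by simp)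
      rw [hal, hn]
      exact this
    have hb2 := hb 2 (by norm_num)
    have hb4 := hb 4 (by norm_num)
    have hf := fin_k2 al hal1 hal2
    have hc1' : (G.card : ℝ) ≤ Q1.card + ((Go.filter (fun A => IsAPd 2 A)).card +
        (Go.filter (fun A => IsAPd 4 A)).card) := by exact_mod_cast hc1
    push_cast at hb2 hb4
    apply final_contra hn12 hE' hE0 hIG' hI' hY3 hal2
    have h2 : 10 ^ 12 * n ≤ n ^ 2 := by nlinarith
    have hf' : n ^ 2 * (0.0598 + (max 0 (1/2-al))^2/2 + (max 0 (1/4-al))^2/2) ≤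
        n ^ 2 * (0.2485*(1-al)^2) := mul_le_mul_of_nonneg_left hf (by positivity)
    linarith
  by_cases hK4 : Kk P x 4
  · have hal4 : al ≤ 0.2501 := by
      have := hdivn 4 (by norm_num) (kk_size hsub hint (by norm_num) inGo hmin hK4)
      norm_num at this
      linarith
    obtain ⟨Q1, hQ1, hcq⟩ := split_q subG intG (fun d => ¬ 4 ∣ d)
    have hsubU : G ⊆ Q1 ∪ Go.filter (fun A => IsAPd 4 A) := by
      intro A hA
      obtain ⟨d, hd, hd'⟩ := hdG A hA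
      by_cases h2d : 4 ∣ d
      · have hav := kk_avoid hint hK4 (memG A hA).1 h2d hd'
        have hAo := inGo A (memG A hA).1 (memG A hA).2 hav
        have h6 : ¬ 6 ≤ d := fun h => hs5 A hAo d h hd'
        have h2 := two d hd
        have : d = 4 := by omega
        subst this
        exact mem_union_right _ (mem_filter.2 ⟨hAo, hd'⟩)
      · exact mem_union_left _ (hQ1 A hA d hd h2d hd')
    have hc1 : G.card ≤ Q1.card + (Go.filter (fun A => IsAPd 4 A)).card :=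
      (card_le_card hsubU).trans (card_union_le _ _)
    have hcq' : 4 * (Q1.card : ℝ) ≤ 1.001 * (0.5347 + 1/99) * n ^ 2 + 9100 * n := by
      have h1 := cap_sum N (fun d => ¬ 4 ∣ d) 0.5347 c_4
      have h2 : ((4 * Q1.card : ℕ) : ℝ) ≤ ((∑ d ∈ (Icc 2 N).filter (fun d => ¬ 4 ∣ d), (N / d + 3) ^ 2 : ℕ) : ℝ) := by
        exact_mod_cast hcq
      rw [hn]
      push_cast at h1 h2 ⊢
      linarith
    have hb4 : ((Go.filter (fun A => IsAPd 4 A)).card : ℝ) ≤
        n ^ 2 * ((max 0 (1 / 4 - al)) ^ 2 / 2) + 3 * n + 3 := by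
      have := big_d (s := s) (d := 4) (lo := 1) (hi := (N : ℤ)) (w := 1) hN0 (by norm_num)
        (Q := Go.filter (fun A => IsAPd 4 A)) (fun A hA => (mem_filter.1 hA).2)
        (fun A hA B hB => intG A (memGo A (mem_filter.1 hA).1).1 B (memGo B (mem_filter.1 hB).1).1)
        (fun A hA => subG A (memGo A (mem_filter.1 hA).1).1)
        (fun A hA => hmin A (mem_filter.1 hA).1) le_rfl (by simp)
      push_cast at this
      rw [hal, hn]
      exact this
    have hf := fin_k4 al hal1 hal4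
    have hc1' : (G.card : ℝ) ≤ Q1.card + (Go.filter (fun A => IsAPd 4 A)).card := by
      exact_mod_cast hc1
    apply final_contra hn12 hE' hE0 hIG' hI' hY3 hal2
    have h2 : 10 ^ 12 * n ≤ n ^ 2 := by nlinarith
    have hf' : n ^ 2 * (0.1365 + (max 0 (1/4-al))^2/2) ≤
        n ^ 2 * (0.2485*(1-al)^2) := mul_le_mul_of_nonneg_left hf (by positivity)
    linarith
  by_cases hK5 : Kk P x 5
  · have hal5 : al ≤ 0.2001 := by
      have := hdivn 5 (by norm_num) (kk_size hsub hint (by norm_num) inGo hmin hK5)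
      norm_num at this
      linarith
    obtain ⟨Q1, hQ1, hcq⟩ := split_q subG intG (fun d => ¬ 5 ∣ d)
    have hsubU : G ⊆ Q1 ∪ Go.filter (fun A => IsAPd 5 A) := by
      intro A hA
      obtain ⟨d, hd, hd'⟩ := hdG A hA
      by_cases h2d : 5 ∣ d
      · have hav := kk_avoid hint hK5 (memG A hA).1 h2d hd'
        have hAo := inGo A (memG A hA).1 (memG A hA).2 hav
        have h6 : ¬ 6 ≤ d := fun h => hs5 A hAo d h hd'
        have h2 := two d hd
        have : d = 5 := by omega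
        subst this
        exact mem_union_right _ (mem_filter.2 ⟨hAo, hd'⟩)
      · exact mem_union_left _ (hQ1 A hA d hd h2d hd')
    have hc1 : G.card ≤ Q1.card + (Go.filter (fun A => IsAPd 5 A)).card :=
      (card_le_card hsubU).trans (card_union_le _ _)
    have hcq' : 4 * (Q1.card : ℝ) ≤ 1.001 * (0.5712 + 1/99) * n ^ 2 + 9100 * n := by
      have h1 := cap_sum N (fun d => ¬ 5 ∣ d) 0.5712 c_5
      have h2 : ((4 * Q1.card : ℕ) : ℝ) ≤ ((∑ d ∈ (Icc 2 N).filter (fun d => ¬ 5 ∣ d), (N / d + 3) ^ 2 : ℕ) : ℝ) := by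
        exact_mod_cast hcq
      rw [hn]
      push_cast at h1 h2 ⊢
      linarith
    have hb5 : ((Go.filter (fun A => IsAPd 5 A)).card : ℝ) ≤
        n ^ 2 * ((max 0 (1 / 5 - al)) ^ 2 / 2) + 3 * n + 3 := by
      have := big_d (s := s) (d := 5) (lo := 1) (hi := (N : ℤ)) (w := 1) hN0 (by norm_num)
        (Q := Go.filter (fun A => IsAPd 5 A)) (fun A hA => (mem_filter.1 hA).2)
        (fun A hA B hB => intG A (memGo A (mem_filter.1 hA).1).1 B (memGo B (mem_filter.1 hB).1).1)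
        (fun A hA => subG A (memGo A (mem_filter.1 hA).1).1)
        (fun A hA => hmin A (mem_filter.1 hA).1) le_rfl (by simp)
      push_cast at this
      rw [hal, hn]
      exact this
    have hf := fin_k5 al hal1 hal5
    have hc1' : (G.card : ℝ) ≤ Q1.card + (Go.filter (fun A => IsAPd 5 A)).card := by
      exact_mod_cast hc1
    apply final_contra hn12 hE' hE0 hIG' hI' hY3 hal2
    have h2 : 10 ^ 12 * n ≤ n ^ 2 := by nlinarith
    have hf' : n ^ 2 * (0.1456 + (max 0 (1/5-al))^2/2) ≤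
        n ^ 2 * (0.2485*(1-al)^2) := mul_le_mul_of_nonneg_left hf (by positivity)
    linarith
  -- the remaining cases
  obtain ⟨H, hH⟩ : ∃ H, H = Go.filter (fun A => ∃ d : ℕ, IsAPd d A ∧ ∀ y ∈ A, (d : ℤ) ∣ x - y) :=
    ⟨_, rfl⟩
  have memH : ∀ A ∈ H, A ∈ Go ∧ ∃ d : ℕ, IsAPd d A ∧ ∀ y ∈ A, (d : ℤ) ∣ x - y := by
    intro A hA
    rw [hH] at hA
    exact mem_filter.1 hA
  have inH : ∀ A ∈ Go, ∀ d : ℕ, 1 ≤ d → IsAPd d A → ¬ Kk P x d → A ∈ H := by
    intro A hA d hd hAd hK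
    rw [hH]
    refine mem_filter.2 ⟨hA, d, hAd, fun y hy => ?_⟩
    by_contra hny
    exact hK ⟨A, (memG A (memGo A hA).1).1, d, hd, dvd_rfl, hAd, y, hy, hny⟩
  obtain ⟨lo, hi, xi, hxi0, hxi1, hside, hlen, hab⟩ := side_data hN0 (H := H)
    (fun A hA => subG A (memGo A (memH A hA).1).1)
    (fun A hA B hB => intG A (memGo A (memH A hA).1).1 B (memGo B (memH B hB).1).1) hxN
    (fun A hA => ⟨(memGo A (memH A hA).1).2, (memH A hA).2⟩)
  have hbH : ∀ d : ℕ, 1 ≤ d → ((H.filter (fun A => IsAPd d A)).card : ℝ) ≤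
      n ^ 2 * ((max 0 ((1 - xi) / d - al)) ^ 2 / 2) + 3 * n + 3 := by
    intro d hd
    have := big_d (s := s) (lo := lo) (hi := hi) (w := 1 - xi) hN0 hd
      (Q := H.filter (fun A => IsAPd d A)) (fun A hA => (mem_filter.1 hA).2)
      (fun A hA B hB => intG A (memGo A (memH A (mem_filter.1 hA).1).1).1 B
        (memGo B (memH B (mem_filter.1 hB).1).1).1)
      (fun A hA => hside A (mem_filter.1 hA).1)
      (fun A hA => hmin A (memH A (mem_filter.1 hA).1).1) (by linarith) hlen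
    rw [hal, hn]
    exact this
  have hb2 := hbH 2 (by norm_num)
  have hb4 := hbH 4 (by norm_num)
  have hb5 := hbH 5 (by norm_num)
  push_cast at hb2 hb4 hb5
  have hnn : 10 ^ 12 * n ≤ n ^ 2 := by nlinarith
  have hal3 : 0.2499 ≤ (1 - al) ^ 2 := by nlinarith
  have hal3' : 0.2499 * n ^ 2 ≤ (1 - al) ^ 2 * n ^ 2 :=
    mul_le_mul_of_nonneg_right hal3 (by positivity)
  have hxx : 0 ≤ xi * (1 - xi) := mul_nonneg hxi0 (by linarith)
  have hxn : 0 ≤ n ^ 2 * (xi * (1 - xi)) := by positivity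
  rw [← hn] at hab
  have habN : (x - 1).toNat + ((N : ℤ) - x).toNat ≤ N := by
    rw [mem_Icc] at hxN
    omega
  by_cases hK3 : Kk P x 3
  · have hal33 : al ≤ 0.334 := by
      have := hdivn 3 (by norm_num) (kk_size hsub hint (by norm_num) inGo hmin hK3)
      norm_num at this
      linarith
    have hb3 : ((Go.filter (fun A => IsAPd 3 A)).card : ℝ) ≤
        n ^ 2 * ((max 0 (1 / 3 - al)) ^ 2 / 2) + 3 * n + 3 := by
      have := big_d (s := s) (d := 3) (lo := 1) (hi := (N : ℤ)) (w := 1) hN0 (by norm_num)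
        (Q := Go.filter (fun A => IsAPd 3 A)) (fun A hA => (mem_filter.1 hA).2)
        (fun A hA B hB => intG A (memGo A (mem_filter.1 hA).1).1 B (memGo B (mem_filter.1 hB).1).1)
        (fun A hA => subG A (memGo A (mem_filter.1 hA).1).1)
        (fun A hA => hmin A (mem_filter.1 hA).1) le_rfl (by simp)
      push_cast at this
      rw [hal, hn]
      exact this
    have hsubU : Go ⊆ Go.filter (fun A => IsAPd 3 A) ∪ (H.filter (fun A => IsAPd 2 A) ∪
        (H.filter (fun A => IsAPd 4 A) ∪ H.filter (fun A => IsAPd 5 A))) := by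
      intro A hA
      obtain ⟨d, hd, hd'⟩ := hdG A (memGo A hA).1
      have h6 : ¬ 6 ≤ d := fun h => hs5 A hA d h hd'
      have h2 := two d hd
      have : d = 2 ∨ d = 3 ∨ d = 4 ∨ d = 5 := by omega
      rcases this with h | h | h | h
      · subst h
        exact mem_union_right _ (mem_union_left _ (mem_filter.2 ⟨inH A hA 2 (by norm_num) hd' hK2, hd'⟩))
      · subst h
        exact mem_union_left _ (mem_filter.2 ⟨hA, hd'⟩)
      · subst h
        exact mem_union_right _ (mem_union_right _ (mem_union_left _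
          (mem_filter.2 ⟨inH A hA 4 (by norm_num) hd' hK4, hd'⟩)))
      · subst h
        exact mem_union_right _ (mem_union_right _ (mem_union_right _
          (mem_filter.2 ⟨inH A hA 5 (by norm_num) hd' hK5, hd'⟩)))
    have hc1 : Go.card ≤ (Go.filter (fun A => IsAPd 3 A)).card + ((H.filter (fun A => IsAPd 2 A)).card +
        ((H.filter (fun A => IsAPd 4 A)).card + (H.filter (fun A => IsAPd 5 A)).card)) :=
      (card_le_card hsubU).trans ((card_union_le _ _).trans (Nat.add_le_add_left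
        ((card_union_le _ _).trans (Nat.add_le_add_left (card_union_le _ _) _)) _))
    have hc1' : (Go.card : ℝ) ≤ (Go.filter (fun A => IsAPd 3 A)).card +
        ((H.filter (fun A => IsAPd 2 A)).card + ((H.filter (fun A => IsAPd 4 A)).card +
          (H.filter (fun A => IsAPd 5 A)).card)) := by exact_mod_cast hc1
    obtain ⟨B, hB⟩ : ∃ B, B = (max 0 (1/3-al))^2/2 + (max 0 ((1-xi)/2-al))^2/2 +
      (max 0 ((1-xi)/4-al))^2/2 + (max 0 ((1-xi)/5-al))^2/2 := ⟨_, rfl⟩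
    have hGoB : (Go.card : ℝ) ≤ n ^ 2 * B + 12 * n + 12 := by
      rw [hB]
      linarith
    have hBl : 0.0263 * (1 - al) ^ 2 ≤ B := by
      by_contra hc
      push Not at hc
      have h1 : n ^ 2 * B ≤ n ^ 2 * (0.0263 * (1 - al) ^ 2) :=
        mul_le_mul_of_nonneg_left hc.le (by positivity)
      nlinarith
    have hf := fin_k3 al xi hal1 hal33 hxi0 hxi1 (by rw [← hB]; exact hBl)
    rw [← hB] at hf
    have hthr := through_q (Q := Gx) (fun A hA => subG A (memGx A hA).1) x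
      (fun A hA => (memGx A hA).2) (fun d => ¬ 3 ∣ d) (by
      intro A hA
      obtain ⟨d, hd, hd'⟩ := hdG A (memGx A hA).1
      refine ⟨d, mem_filter.2 ⟨hd, fun h3 => ?_⟩, hd'⟩
      exact kk_avoid hint hK3 (memG A (memGx A hA).1).1 h3 hd' (memGx A hA).2)
    have hthr' : (Gx.card : ℝ) ≤ (0.4555 + 1/99) * ((((x - 1).toNat : ℕ) : ℝ) *
        ((((N : ℤ) - x).toNat : ℕ) : ℝ) + 0.0001 * n ^ 2) + 2600 * n := by
      have h1 := mul_sum_bound N (x - 1).toNat ((N : ℤ) - x).toNat habN (fun d => ¬ 3 ∣ d) 0.4555 c_3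
      have h2 : (Gx.card : ℝ) ≤ ((∑ d ∈ (Icc 2 N).filter (fun d => ¬ 3 ∣ d),
        ((x - 1).toNat / d + 1) * (((N : ℤ) - x).toNat / d + 1) : ℕ) : ℝ) := by exact_mod_cast hthr
      rw [hn]
      exact h2.trans h1
    apply final_contra hn12 hE' hE0 hIG' hI' hY3 hal2
    have hf' : n ^ 2 * (0.466 * (xi * (1 - xi)) + B) ≤ n ^ 2 * (0.2485*(1-al)^2) :=
      mul_le_mul_of_nonneg_left hf (by positivity)
    linarith
  · have hb3 := hbH 3 (by norm_num)
    push_cast at hb3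
    have hsubU : Go ⊆ H.filter (fun A => IsAPd 3 A) ∪ (H.filter (fun A => IsAPd 2 A) ∪
        (H.filter (fun A => IsAPd 4 A) ∪ H.filter (fun A => IsAPd 5 A))) := by
      intro A hA
      obtain ⟨d, hd, hd'⟩ := hdG A (memGo A hA).1
      have h6 : ¬ 6 ≤ d := fun h => hs5 A hA d h hd'
      have h2 := two d hd
      have : d = 2 ∨ d = 3 ∨ d = 4 ∨ d = 5 := by omega
      rcases this with h | h | h | h
      · subst h
        exact mem_union_right _ (mem_union_left _ (mem_filter.2 ⟨inH A hA 2 (by norm_num) hd' hK2, hd'⟩))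
      · subst h
        exact mem_union_left _ (mem_filter.2 ⟨inH A hA 3 (by norm_num) hd' hK3, hd'⟩)
      · subst h
        exact mem_union_right _ (mem_union_right _ (mem_union_left _
          (mem_filter.2 ⟨inH A hA 4 (by norm_num) hd' hK4, hd'⟩)))
      · subst h
        exact mem_union_right _ (mem_union_right _ (mem_union_right _
          (mem_filter.2 ⟨inH A hA 5 (by norm_num) hd' hK5, hd'⟩)))
    have hc1 : Go.card ≤ (H.filter (fun A => IsAPd 3 A)).card + ((H.filter (fun A => IsAPd 2 A)).card +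
        ((H.filter (fun A => IsAPd 4 A)).card + (H.filter (fun A => IsAPd 5 A)).card)) :=
      (card_le_card hsubU).trans ((card_union_le _ _).trans (Nat.add_le_add_left
        ((card_union_le _ _).trans (Nat.add_le_add_left (card_union_le _ _) _)) _))
    have hc1' : (Go.card : ℝ) ≤ (H.filter (fun A => IsAPd 3 A)).card +
        ((H.filter (fun A => IsAPd 2 A)).card + ((H.filter (fun A => IsAPd 4 A)).card +
          (H.filter (fun A => IsAPd 5 A)).card)) := by exact_mod_cast hc1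
    obtain ⟨B, hB⟩ : ∃ B, B = (max 0 ((1-xi)/2-al))^2/2 + (max 0 ((1-xi)/3-al))^2/2 +
      (max 0 ((1-xi)/4-al))^2/2 + (max 0 ((1-xi)/5-al))^2/2 := ⟨_, rfl⟩
    have hGoB : (Go.card : ℝ) ≤ n ^ 2 * B + 12 * n + 12 := by
      rw [hB]
      linarith
    have hBl : 0.0263 * (1 - al) ^ 2 ≤ B := by
      by_contra hc
      push Not at hc
      have h1 : n ^ 2 * B ≤ n ^ 2 * (0.0263 * (1 - al) ^ 2) :=
        mul_le_mul_of_nonneg_left hc.le (by positivity)
      nlinarith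
    have hf := fin_none al xi hal1 hxi0 hxi1 (by rw [← hB]; exact hBl) (by linarith)
    rw [← hB] at hf
    have hthr := through_q (Q := Gx) (fun A hA => subG A (memGx A hA).1) x
      (fun A hA => (memGx A hA).2) (fun _ => True) (by
      intro A hA
      obtain ⟨d, hd, hd'⟩ := hdG A (memGx A hA).1
      exact ⟨d, mem_filter.2 ⟨hd, trivial⟩, hd'⟩)
    have hthr' : (Gx.card : ℝ) ≤ (0.6349 + 1/99) * ((((x - 1).toNat : ℕ) : ℝ) *
        ((((N : ℤ) - x).toNat : ℕ) : ℝ) + 0.0001 * n ^ 2) + 2600 * n := by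
      have h1 := mul_sum_bound N (x - 1).toNat ((N : ℤ) - x).toNat habN (fun _ => True) 0.6349 c_all
      have h2 : (Gx.card : ℝ) ≤ ((∑ d ∈ (Icc 2 N).filter (fun _ => True),
        ((x - 1).toNat / d + 1) * (((N : ℤ) - x).toNat / d + 1) : ℕ) : ℝ) := by exact_mod_cast hthr
      rw [hn]
      exact h2.trans h1
    apply final_contra hn12 hE' hE0 hIG' hI' hY3 hal2
    have hf' : n ^ 2 * (0.6457 * (xi * (1 - xi)) + B) ≤ n ^ 2 * (0.2485*(1-al)^2) :=
      mul_le_mul_of_nonneg_left hf (by positivity)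
    linarith

end Pool.Agent.H33.AP
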