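import Pool.Agent.H21.AP.Helly

/-!
Counts of pairwise intersecting progressions with a given difference.
-/

set_option autoImplicit false

namespace Pool.Agent.H33.AP

open Finset Pool.Agent.H483S Pool.Agent.H21.AP

/-- interval -/
def IsIvl (A : Finset ℤ) : Prop := ∃ a b : ℤ, a ≤ b ∧ A = Icc a b

theorem apd_of_not_ivl {N : ℕ} {A : Finset ℤ} (hA : IsAP A) (hn : ¬ IsIvl A)
    (hsub : A ⊆ Icc 1 (N : ℤ)) : ∃ d ∈ Icc 2 N, IsAPd d A := by
  obtain ⟨a, d, l, hd, hl, rfl⟩ := hA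
  have hl2 : 2 ≤ l := by
    by_contra hc
    have hl1 : l = 1 := by omega
    subst hl1
    apply hn
    refine ⟨a, a, le_rfl, ?_⟩
    simp
  have hd2 : 2 ≤ d := by
    by_contra hc
    have hd1 : d = 1 := by omega
    subst hd1
    apply hn
    refine ⟨a, a + l - 1, by omega, ?_⟩
    ext w
    rw [mem_image, mem_Icc]
    constructor
    · rintro ⟨i, hi, rfl⟩
      rw [mem_range] at hi
      omega
    · rintro ⟨h1, h2⟩
      refine ⟨(w - a).toNat, ?_, ?_⟩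
      · rw [mem_range]
        omega
      · rw [Int.toNat_of_nonneg (by omega)]
        ring
  have m0 := mem_Icc.1 (hsub (mem_image.2 ⟨0, mem_range.2 (by omega), rfl⟩))
  have m1 := mem_Icc.1 (hsub (mem_image.2 ⟨1, mem_range.2 (by omega), rfl⟩))
  push_cast at m0 m1
  have hdd : ((d.toNat : ℕ) : ℤ) = d := Int.toNat_of_nonneg (by omega)
  refine ⟨d.toNat, ?_, a, l, hl2, ?_⟩
  · rw [mem_Icc]
    omega
  · rw [hdd]

theorem apd_not_ivl {d : ℕ} (hd : 2 ≤ d) {A : Finset ℤ} (hA : IsAPd d A) : ¬ IsIvl A := by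
  rintro ⟨u, v, huv, rfl⟩
  obtain ⟨a, l, hl, h⟩ := hA
  have m0 : a ∈ Icc u v := by
    rw [h]
    exact mem_image.2 ⟨0, mem_range.2 (by omega), by simp⟩
  have m1 : a + d ∈ Icc u v := by
    rw [h]
    exact mem_image.2 ⟨1, mem_range.2 (by omega), by simp⟩
  rw [mem_Icc] at m0 m1
  have m2 : a + 1 ∈ Icc u v := by
    rw [mem_Icc]
    omega
  rw [h] at m2
  obtain ⟨i, -, hi⟩ := mem_image.1 m2
  have h1 : (i : ℤ) * d = 1 := by linarith
  have h2 : i * d = 1 := by exact_mod_cast h1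
  have := Nat.eq_one_of_mul_eq_one_left h2
  omega

theorem apd_dvd {d : ℕ} {A : Finset ℤ} (hA : IsAPd d A) {y z : ℤ} (hy : y ∈ A) (hz : z ∈ A) :
    (d : ℤ) ∣ y - z := by
  obtain ⟨a, l, hl, rfl⟩ := hA
  obtain ⟨i, -, rfl⟩ := mem_image.1 hy
  obtain ⟨j, -, rfl⟩ := mem_image.1 hz
  exact ⟨(i : ℤ) - j, by ring⟩

theorem apd_nonempty {d : ℕ} {A : Finset ℤ} (hA : IsAPd d A) : A.Nonempty := by
  obtain ⟨a, l, hl, rfl⟩ := hA
  exact ⟨a + (0 : ℕ) * d, mem_image.2 ⟨0, mem_range.2 (by omega), rfl⟩⟩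

/-- a progression in the class of `x` that surrounds `x` contains `x` -/
theorem apd_between {d : ℕ} {A : Finset ℤ} (hA : IsAPd d A) {x y z : ℤ} (hy : y ∈ A) (hz : z ∈ A)
    (hyx : y ≤ x) (hxz : x ≤ z) (hd : (d : ℤ) ∣ x - y) : x ∈ A := by
  obtain ⟨a, l, hl, rfl⟩ := hA
  obtain ⟨i, hi, rfl⟩ := mem_image.1 hy
  obtain ⟨j, hj, rfl⟩ := mem_image.1 hz
  rw [mem_range] at hi hj
  obtain ⟨k, hk⟩ := hd
  rcases Nat.eq_zero_or_pos d with h0 | h0
  · subst h0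
    refine mem_image.2 ⟨i, mem_range.2 hi, ?_⟩
    push_cast at hyx hxz ⊢
    rw [mul_zero] at hyx hxz ⊢
    linarith
  · have e1 : (0 : ℤ) < d := by exact_mod_cast h0
    have hx : x = a + (i + k) * d := by linarith
    have hk0 : 0 ≤ k := by
      by_contra hc
      push Not at hc
      nlinarith
    have hkj : (i : ℤ) + k ≤ j := by
      by_contra hc
      push Not at hc
      nlinarith
    refine mem_image.2 ⟨i + k.toNat, mem_range.2 ?_, ?_⟩
    · omega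
    · push_cast
      rw [Int.toNat_of_nonneg hk0]
      exact hx.symm

theorem form_at {d : ℕ} (hd : 1 ≤ d) {A : Finset ℤ} (hA : IsAPd d A) {lo hi m : ℤ}
    (hsub : A ⊆ Icc lo hi) (hm : m ∈ A) :
    ∃ p : ℕ × ℕ, p.1 ≤ (m - lo).toNat / d ∧ p.2 ≤ (hi - m).toNat / d ∧ A = hprog d m p := by
  have e1 : (0 : ℤ) < d := by exact_mod_cast hd
  obtain ⟨a, l, hl, hAe⟩ := hA
  have memA : ∀ i : ℕ, i < l → a + i * d ∈ A := by
    intro i hil
    rw [hAe]
    exact mem_image.2 ⟨i, mem_range.2 hil, rfl⟩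
  have hmA := hm
  rw [hAe] at hmA
  obtain ⟨i, hi', hie⟩ := mem_image.1 hmA
  rw [mem_range] at hi'
  refine ⟨(i, l - 1 - i), ?_, ?_, ?_⟩
  · dsimp only
    rw [Nat.le_div_iff_mul_le hd]
    have h0 := memA 0 (by omega)
    have h1 := (mem_Icc.1 (hsub h0)).1
    push_cast at h1
    have h2 : ((i * d : ℕ) : ℤ) ≤ m - lo := by
      push_cast
      linarith
    omega
  · dsimp only
    rw [Nat.le_div_iff_mul_le hd]
    have h0 := memA (l - 1) (by omega)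
    have h1 := (mem_Icc.1 (hsub h0)).2
    have h2 : ((l - 1 : ℕ) : ℤ) = ((l - 1 - i : ℕ) : ℤ) + i := by
      have : l - 1 = (l - 1 - i) + i := by omega
      exact_mod_cast this
    rw [h2, add_mul] at h1
    have h3 : (((l - 1 - i) * d : ℕ) : ℤ) ≤ hi - m := by
      push_cast
      linarith
    omega
  · unfold hprog
    dsimp only
    rw [hAe]
    ext c
    rw [mem_image, mem_image]
    constructor
    · rintro ⟨k, hk, rfl⟩
      rw [mem_range] at hk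
      refine ⟨(k : ℤ) - i, ?_, ?_⟩
      · rw [mem_Icc]
        omega
      · rw [← hie]
        ring
    · rintro ⟨k, hk, rfl⟩
      rw [mem_Icc] at hk
      refine ⟨(k + i).toNat, ?_, ?_⟩
      · rw [mem_range]
        omega
      · rw [Int.toNat_of_nonneg (by omega), ← hie]
        ring

/-- the Helly point -/
theorem helly_pt {d : ℕ} {P : Finset (Finset ℤ)} (hP : ∀ A ∈ P, IsAPd d A)
    (hint : ∀ A ∈ P, ∀ B ∈ P, A ≠ B → (A ∩ B).Nonempty) : ∃ m : ℤ, ∀ A ∈ P, m ∈ A := by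
  classical
  rcases P.eq_empty_or_nonempty with rfl | hne
  · exact ⟨0, by simp⟩
  have hmin : ∀ A ∈ P, ∃ a ∈ A, ∀ b ∈ A, a ≤ b := by
    intro A hA
    obtain ⟨a, ha, h⟩ := exists_min_image A id (apd_nonempty (hP A hA))
    exact ⟨a, ha, h⟩
  choose! f hf1 hf2 using hmin
  obtain ⟨A0, hA0, hmax⟩ := exists_max_image P f hne
  refine ⟨f A0, fun A hA => ?_⟩
  by_cases h : A = A0
  · subst h
    exact hf1 A hA
  · obtain ⟨c, hc⟩ := hint A hA A0 hA0 h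
    obtain ⟨hc1, hc2⟩ := mem_inter.1 hc
    have h1 : (d : ℤ) ∣ c - f A := apd_dvd (hP A hA) hc1 (hf1 A hA)
    have h2 : (d : ℤ) ∣ c - f A0 := apd_dvd (hP A0 hA0) hc2 (hf1 A0 hA0)
    have h3 : (d : ℤ) ∣ f A0 - f A := by
      have := dvd_sub h1 h2
      have e : c - f A - (c - f A0) = f A0 - f A := by ring
      rwa [e] at this
    exact apd_between (hP A hA) (hf1 A hA) hc1 (hmax A hA) (hf2 A0 hA0 c hc2) h3

theorem pairs_at {d : ℕ} (hd : 1 ≤ d) {Q : Finset (Finset ℤ)} (hQ : ∀ A ∈ Q, IsAPd d A)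
    {lo hi m : ℤ} (hsub : ∀ A ∈ Q, A ⊆ Icc lo hi) (hm : ∀ A ∈ Q, m ∈ A) :
    ∃ T : Finset (ℕ × ℕ), T.card = Q.card ∧
      ∀ p ∈ T, p.1 ≤ (m - lo).toNat / d ∧ p.2 ≤ (hi - m).toNat / d ∧ hprog d m p ∈ Q := by
  classical
  have h := fun A (hA : A ∈ Q) => form_at hd (hQ A hA) (hsub A hA) (hm A hA)
  choose! f hf1 hf2 hf3 using h
  refine ⟨Q.image f, ?_, ?_⟩
  · apply card_image_of_injOn
    intro A hA B hB h
    rw [hf3 A hA, hf3 B hB, h]
  · intro p hp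
    obtain ⟨A, hA, rfl⟩ := mem_image.1 hp
    refine ⟨hf1 A hA, hf2 A hA, ?_⟩
    rw [← hf3 A hA]
    exact hA

/-- members containing `x` -/
theorem contain_count {N d : ℕ} (hd : 1 ≤ d) {Q : Finset (Finset ℤ)} (hQ : ∀ A ∈ Q, IsAPd d A)
    (hsub : ∀ A ∈ Q, A ⊆ Icc 1 (N : ℤ)) {x : ℤ} (hx : ∀ A ∈ Q, x ∈ A) :
    Q.card ≤ ((x - 1).toNat / d + 1) * (((N : ℤ) - x).toNat / d + 1) := by
  classical
  obtain ⟨T, h1, h2⟩ := pairs_at hd hQ hsub hx
  rw [← h1]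
  have h3 : T ⊆ range ((x - 1).toNat / d + 1) ×ˢ range (((N : ℤ) - x).toNat / d + 1) := by
    intro p hp
    obtain ⟨k1, k2, -⟩ := h2 p hp
    rw [mem_product, mem_range, mem_range]
    omega
  have := card_le_card h3
  rwa [card_product, card_range, card_range] at this

/-- members with at least `s` elements, all in an interval -/
theorem big_count {d s : ℕ} (hd : 1 ≤ d) {Q : Finset (Finset ℤ)} (hQ : ∀ A ∈ Q, IsAPd d A)
    (hint : ∀ A ∈ Q, ∀ B ∈ Q, A ≠ B → (A ∩ B).Nonempty) {lo hi : ℤ}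
    (hsub : ∀ A ∈ Q, A ⊆ Icc lo hi) (hs : ∀ A ∈ Q, s ≤ A.card) :
    2 * Q.card ≤ ((hi + 1 - lo).toNat / d + 2 - s) * ((hi + 1 - lo).toNat / d + 3 - s) := by
  classical
  rcases Q.eq_empty_or_nonempty with rfl | hne
  · simp
  obtain ⟨m, hm⟩ := helly_pt hQ hint
  obtain ⟨T, h1, h2⟩ := pairs_at hd hQ hsub hm
  rw [← h1]
  obtain ⟨A0, hA0⟩ := hne
  have hmI := mem_Icc.1 (hsub A0 hA0 (hm A0 hA0))
  obtain ⟨I, hI⟩ : ∃ I, I = (m - lo).toNat / d := ⟨_, rfl⟩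
  obtain ⟨J, hJ⟩ : ∃ J, J = (hi - m).toNat / d := ⟨_, rfl⟩
  obtain ⟨n, hn⟩ : ∃ n, n = (hi + 1 - lo).toNat / d := ⟨_, rfl⟩
  rw [← hn]
  rw [← hI, ← hJ] at h2
  have hIJ : I + J ≤ n := by
    have k1 : I * d ≤ (m - lo).toNat := by rw [hI]; exact Nat.div_mul_le_self _ _
    have k2 : J * d ≤ (hi - m).toNat := by rw [hJ]; exact Nat.div_mul_le_self _ _
    rw [hn, Nat.le_div_iff_mul_le hd, add_mul]
    omega
  have hTs : ∀ p ∈ T, s ≤ p.1 + p.2 + 1 := by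
    intro p hp
    have := hs _ (h2 p hp).2.2
    rwa [card_hprog hd] at this
  have h6 : T.card = (T.image (fun p : ℕ × ℕ => ((I - p.1, J - p.2) : ℕ × ℕ))).card := by
    rw [card_image_of_injOn]
    rintro ⟨p, p'⟩ hp ⟨q, q'⟩ hq h
    obtain ⟨k1, k2, -⟩ := h2 _ (mem_coe.1 hp)
    obtain ⟨k3, k4, -⟩ := h2 _ (mem_coe.1 hq)
    obtain ⟨e1, e2⟩ := Prod.mk.inj h
    dsimp only at k1 k2 k3 k4 e1 e2
    rw [Prod.mk.injEq]
    omega
  have h7 := strip_card (T.image (fun p : ℕ × ℕ => ((I - p.1, J - p.2) : ℕ × ℕ))) 0 (n + 2 - s) (by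
    intro p hp
    obtain ⟨q, hq, rfl⟩ := mem_image.1 hp
    obtain ⟨k1, k2, -⟩ := h2 q hq
    have k3 := hTs q hq
    dsimp only
    omega) (by omega)
  rw [← h6] at h7
  have h8 : (n + 2 - s) * (n + 2 - s + 1) ≤ (n + 2 - s) * (n + 3 - s) ∨ n + 2 - s = 0 := by
    rcases Nat.eq_zero_or_pos (n + 2 - s) with h | h
    · right; exact h
    · left
      apply Nat.mul_le_mul_left
      omega
  rcases h8 with h8 | h8
  · omega
  · rw [h8] at h7
    omega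

/-- the size of a member -/
theorem size_le {N d : ℕ} (hd : 1 ≤ d) {A : Finset ℤ} (hA : IsAPd d A)
    (hsub : A ⊆ Icc 1 (N : ℤ)) : A.card ≤ N / d + 1 := by
  obtain ⟨m, hm⟩ := apd_nonempty hA
  obtain ⟨p, h1, h2, h3⟩ := form_at hd hA hsub hm
  have hmI := mem_Icc.1 (hsub hm)
  have k3 : A.card = p.1 + p.2 + 1 := by
    rw [h3, card_hprog hd]
  have k1 : (m - 1).toNat / d * d ≤ (m - 1).toNat := Nat.div_mul_le_self _ _
  have k2 : ((N : ℤ) - m).toNat / d * d ≤ ((N : ℤ) - m).toNat := Nat.div_mul_le_self _ _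
  have k4 : (m - 1).toNat / d + ((N : ℤ) - m).toNat / d ≤ N / d := by
    rw [Nat.le_div_iff_mul_le hd, add_mul]
    omega
  omega

end Pool.Agent.H33.AP
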